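import Mathlib
import Pool.Agent.Lib_helper69.UH.Defs

/-! MP_8215f0_lc, module C : the Polish space `XX` and the action of `U(ℓ²)` on it. -/

set_option autoImplicit false

noncomputable section

open Filter Topology Set

namespace Pool.Agent.UH48

open Pool.Agent.UHz

/-- sequences of vectors -/
abbrev EE := ℕ → HH

/-- the product metric on sequences of vectors -/
def DD (x y : EE) : ℝ := @dist EE PiCountable.dist x y

theorem DD_eq (x y : EE) :
    DD x y = ∑' i, min (2⁻¹ ^ Encodable.encode i) (dist (x i) (y i)) := rfl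

theorem DD_self (x : EE) : DD x x = 0 := by
  simp [DD_eq]

theorem DD_nonneg (x y : EE) : 0 ≤ DD x y := by
  rw [DD_eq]; exact tsum_nonneg fun i => le_min (by positivity) dist_nonneg

theorem DD_comm (x y : EE) : DD x y = DD y x := by
  simp only [DD_eq, dist_comm]

theorem DD_triangle (x y z : EE) : DD x z ≤ DD x y + DD y z := by
  let _ : PseudoMetricSpace EE := PiCountable.pseudoMetricSpace
  exact dist_triangle x y z

theorem DD_map (U : UU) (x y : EE) : DD (fun i => U (x i)) (fun i => U (y i)) = DD x y := by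
  simp only [DD_eq, U.dist_map]

theorem DD_tendsto {ι : Type} {l : Filter ι} (x : ι → EE) (y : EE) :
    Tendsto (fun k => DD (x k) y) l (𝓝 0) ↔ ∀ i, Tendsto (fun k => x k i) l (𝓝 (y i)) := by
  rw [← tendsto_pi_nhds]
  let _ : PseudoMetricSpace EE := PiCountable.pseudoMetricSpace
  exact (tendsto_iff_dist_tendsto_zero (f := x) (x := l) (a := y)).symm

instance HH_separable : TopologicalSpace.SeparableSpace HH := by
  have b : HilbertBasis ℕ ℂ HH := default
  have h1 : TopologicalSpace.IsSeparable (Set.range b) := TopologicalSpace.isSeparable_range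
    (continuous_of_discreteTopology)
  have h2 : TopologicalSpace.IsSeparable (Submodule.span ℂ (Set.range b) : Set HH) := h1.span
  have h3 := h2.closure
  have h4 := b.dense_span
  have h5 : closure (Submodule.span ℂ (Set.range b) : Set HH) = Set.univ := by
    have h6 := congrArg (fun S : Submodule ℂ HH => (S : Set HH)) h4
    simp only [Submodule.topologicalClosure_coe, Submodule.top_coe] at h6
    exact h6
  rw [h5] at h3
  exact TopologicalSpace.isSeparable_univ_iff.1 h3

/-- the space -/
def XX : Type :=
  {f : ℕ → EE → ℝ // ∀ n, (∀ x, f n x ∈ Icc (0 : ℝ) 1) ∧ ∀ x y, |f n x - f n y| ≤ DD x y}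

instance : TopologicalSpace XX := instTopologicalSpaceSubtype
instance : MeasurableSpace XX := borel XX
instance : BorelSpace XX := ⟨rfl⟩

theorem ev_cont (n : ℕ) (x : EE) : Continuous fun f : ℕ → EE → ℝ => f n x :=
  (continuous_apply x).comp (continuous_apply n)

theorem XX_coord (n : ℕ) (x : EE) : Continuous fun f : XX => f.1 n x :=
  (ev_cont n x).comp continuous_subtype_val

theorem XX_closed :
    IsClosed {f : ℕ → EE → ℝ | ∀ n, (∀ x, f n x ∈ Icc (0 : ℝ) 1) ∧
      ∀ x y, |f n x - f n y| ≤ DD x y} := by
  have e := ev_cont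
  simp only [Set.ofPred_forall, Set.ofPred_and]
  refine isClosed_iInter fun n => IsClosed.inter ?_ ?_
  · exact isClosed_iInter fun x => isClosed_Icc.preimage (e n x)
  · exact isClosed_iInter fun x => isClosed_iInter fun y =>
      isClosed_le ((e n x).sub (e n y)).abs continuous_const

theorem XX_compact :
    IsCompact {f : ℕ → EE → ℝ | ∀ n, (∀ x, f n x ∈ Icc (0 : ℝ) 1) ∧
      ∀ x y, |f n x - f n y| ≤ DD x y} := by
  refine IsCompact.of_isClosed_subset (s := Set.pi univ fun _ : ℕ => Set.pi univ fun _ : EE =>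
    Icc (0 : ℝ) 1) (isCompact_univ_pi fun n => isCompact_univ_pi fun x => isCompact_Icc)
    XX_closed ?_
  intro f hf n _ x _
  exact (hf n).1 x

instance : CompactSpace XX := isCompact_iff_compactSpace.1 XX_compact

instance : Nonempty EE := ⟨fun _ => 0⟩

/-- evaluation on a dense sequence -/
def ev (f : XX) : ℕ → ℕ → ℝ := fun n k => f.1 n (TopologicalSpace.denseSeq EE k)

theorem ev_continuous : Continuous ev := by
  exact continuous_pi fun n => continuous_pi fun k => XX_coord n _

theorem dense_DD (x : EE) (ε : ℝ) (hε : 0 < ε) :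
    ∃ k, DD (TopologicalSpace.denseSeq EE k) x < ε := by
  let _ : PseudoMetricSpace EE := PiCountable.pseudoMetricSpace
  have h := (TopologicalSpace.denseRange_denseSeq EE)
  obtain ⟨k, hk⟩ := h.exists_dist_lt x hε
  refine ⟨k, ?_⟩
  rw [DD_comm]
  exact hk

theorem ev_injective : Function.Injective ev := by
  intro f g h
  apply Subtype.ext
  funext n x
  by_contra hne
  have hpos : 0 < |f.1 n x - g.1 n x| := abs_pos.2 (sub_ne_zero.2 hne)
  obtain ⟨k, hk⟩ := dense_DD x (|f.1 n x - g.1 n x| / 2) (by positivity)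
  have h1 := (f.2 n).2 (TopologicalSpace.denseSeq EE k) x
  have h2 := (g.2 n).2 (TopologicalSpace.denseSeq EE k) x
  have h3 : f.1 n (TopologicalSpace.denseSeq EE k) = g.1 n (TopologicalSpace.denseSeq EE k) :=
    congrFun (congrFun h n) k
  rw [h3] at h1
  have h4 : |f.1 n x - g.1 n x| ≤ DD (TopologicalSpace.denseSeq EE k) x +
      DD (TopologicalSpace.denseSeq EE k) x := by
    have : f.1 n x - g.1 n x = -(g.1 n (TopologicalSpace.denseSeq EE k) - f.1 n x) +
      (g.1 n (TopologicalSpace.denseSeq EE k) - g.1 n x) := by ring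
    rw [this]
    refine (abs_add_le _ _).trans ?_
    rw [abs_neg]
    exact add_le_add h1 h2
  linarith

theorem ev_closedEmbedding : IsClosedEmbedding ev :=
  ev_continuous.isClosedEmbedding ev_injective

instance : PolishSpace XX := ev_closedEmbedding.polishSpace

/-- a map into `XX` is Borel iff its coordinates are -/
theorem measurable_XX {Y : Type} [MeasurableSpace Y] (f : Y → XX)
    (h : ∀ n x, Measurable fun y => (f y).1 n x) : Measurable f := by
  rw [← ev_closedEmbedding.measurableEmbedding.measurable_comp_iff]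
  exact measurable_pi_lambda _ fun n => measurable_pi_lambda _ fun k => h n _

/-- the action -/
def act (U : UU) (f : XX) : XX :=
  ⟨fun n x => f.1 n (fun i => U.symm (x i)), fun n => ⟨fun _ => (f.2 n).1 _, fun x y =>
    ((f.2 n).2 _ _).trans (DD_map U.symm x y).le⟩⟩

theorem act_refl (f : XX) : act (LinearIsometryEquiv.refl ℂ HH) f = f := rfl

theorem act_trans (U V : UU) (f : XX) : act (U.trans V) f = act V (act U f) := rfl

/-- the strong operator topology -/
abbrev sot : TopologicalSpace UU :=
  TopologicalSpace.induced (fun U : UU => (⇑U : HH → HH)) inferInstance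

theorem act_continuous :
    @Continuous (UU × XX) XX (@instTopologicalSpaceProd UU XX sot _) _
      (fun p : UU × XX => act p.1 p.2) := by
  let _ : TopologicalSpace UU := sot
  have hc : Continuous (fun U : UU => (⇑U : HH → HH)) := continuous_induced_dom
  have hcv (v : HH) : Continuous fun U : UU => U v := (continuous_apply v).comp hc
  have hinv (v : HH) : Continuous fun U : UU => U.symm v := by
    rw [continuous_iff_continuousAt]
    intro U₀
    rw [ContinuousAt, tendsto_iff_dist_tendsto_zero]
    have h1 : (fun U : UU => dist (U.symm v) (U₀.symm v)) =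
        fun U : UU => dist (U₀ (U₀.symm v)) (U (U₀.symm v)) := by
      funext U
      rw [← U.dist_map (U.symm v) (U₀.symm v)]
      simp
    rw [h1]
    have h2 : Tendsto (fun U : UU => dist (U₀ (U₀.symm v)) (U (U₀.symm v))) (𝓝 U₀)
        (𝓝 (dist (U₀ (U₀.symm v)) (U₀ (U₀.symm v)))) :=
      (tendsto_const_nhds).dist ((hcv (U₀.symm v)).tendsto U₀)
    simpa using h2
  refine Continuous.subtype_mk (continuous_pi fun n => continuous_pi fun x => ?_) _
  rw [continuous_iff_continuousAt]
  rintro ⟨U₀, f₀⟩
  show Tendsto (fun p : UU × XX => p.2.1 n (fun i => p.1.symm (x i))) (𝓝 (U₀, f₀))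
    (𝓝 (f₀.1 n (fun i => U₀.symm (x i))))
  rw [tendsto_iff_dist_tendsto_zero]
  have hA : Tendsto (fun p : UU × XX => DD (fun i => p.1.symm (x i)) (fun i => U₀.symm (x i)))
      (𝓝 (U₀, f₀)) (𝓝 0) := by
    rw [DD_tendsto (fun p : UU × XX => fun i => p.1.symm (x i)) (fun i => U₀.symm (x i))]
    intro i
    exact ((hinv (x i)).comp continuous_fst).tendsto (U₀, f₀)
  have hB : Tendsto (fun p : UU × XX => dist (p.2.1 n (fun i => U₀.symm (x i)))
      (f₀.1 n (fun i => U₀.symm (x i)))) (𝓝 (U₀, f₀)) (𝓝 0) := by
    rw [← tendsto_iff_dist_tendsto_zero]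
    have : Continuous fun p : UU × XX => p.2.1 n (fun i => U₀.symm (x i)) :=
      (XX_coord n _).comp continuous_snd
    exact this.tendsto (U₀, f₀)
  refine squeeze_zero (fun _ => dist_nonneg) (fun p => ?_) (by simpa using hA.add hB)
  calc dist (p.2.1 n (fun i => p.1.symm (x i))) (f₀.1 n (fun i => U₀.symm (x i)))
      ≤ dist (p.2.1 n (fun i => p.1.symm (x i))) (p.2.1 n (fun i => U₀.symm (x i))) +
        dist (p.2.1 n (fun i => U₀.symm (x i))) (f₀.1 n (fun i => U₀.symm (x i))) :=
        dist_triangle _ _ _
    _ ≤ _ := by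
        gcongr
        rw [Real.dist_eq]
        exact (p.2.2 n).2 _ _

end Pool.Agent.UH48
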