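import Mathlib
import Pool.Agent.Lib_helper69.UH.Defs
import Pool.Agent.Lib_helper48.UH.Space

/-! MP_8215f0_lc, module E : the Borel reduction, from module D (`factor`). -/

set_option autoImplicit false

noncomputable section

open Filter Topology Set

namespace Pool.Agent.UH48

open Pool.Agent.UHz

section

variable {G : Type} [Group G] {Y : Type} [MulAction G Y]

/-- the set of candidate distances -/
def dset (R : Set (UU × G)) (e : EE) (B : Set Y) (y : Y) (x : EE) : Set ℝ :=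
  insert 1 {r | ∃ p ∈ R, p.2 • y ∈ B ∧ r = DD x (fun i => p.1.symm (e i))}

theorem dset_bdd (R : Set (UU × G)) (e : EE) (B : Set Y) (y : Y) (x : EE) :
    ∀ r ∈ dset R e B y x, (0 : ℝ) ≤ r := by
  rintro r (rfl | ⟨p, _, _, rfl⟩)
  · exact zero_le_one
  · exact DD_nonneg _ _

theorem dset_bddBelow (R : Set (UU × G)) (e : EE) (B : Set Y) (y : Y) (x : EE) :
    BddBelow (dset R e B y x) := ⟨0, dset_bdd R e B y x⟩

theorem dset_nonempty (R : Set (UU × G)) (e : EE) (B : Set Y) (y : Y) (x : EE) :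
    (dset R e B y x).Nonempty := ⟨1, mem_insert _ _⟩

/-- truncated distance from `x` to `{u⁻¹ e : (u, g) ∈ R, g • y ∈ B}` -/
def ff (R : Set (UU × G)) (e : EE) (B : Set Y) (y : Y) (x : EE) : ℝ := sInf (dset R e B y x)

theorem ff_nonneg (R : Set (UU × G)) (e : EE) (B : Set Y) (y : Y) (x : EE) :
    0 ≤ ff R e B y x := Real.sInf_nonneg (dset_bdd R e B y x)

theorem ff_le (R : Set (UU × G)) (e : EE) (B : Set Y) (y : Y) (x : EE) {r : ℝ}
    (hr : r ∈ dset R e B y x) : ff R e B y x ≤ r := csInf_le (dset_bddBelow R e B y x) hr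

theorem ff_le_one (R : Set (UU × G)) (e : EE) (B : Set Y) (y : Y) (x : EE) :
    ff R e B y x ≤ 1 := ff_le R e B y x (mem_insert _ _)

theorem ff_lt_iff (R : Set (UU × G)) (e : EE) (B : Set Y) (y : Y) (x : EE) (c : ℝ) :
    ff R e B y x < c ↔ ∃ r ∈ dset R e B y x, r < c :=
  csInf_lt_iff (dset_bddBelow R e B y x) (dset_nonempty R e B y x)

theorem ff_lip_aux (R : Set (UU × G)) (e : EE) (B : Set Y) (y : Y) (x x' : EE) :
    ff R e B y x ≤ ff R e B y x' + DD x x' := by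
  rw [← sub_le_iff_le_add]
  refine le_csInf (dset_nonempty R e B y x') ?_
  rintro r (rfl | ⟨p, hp, hpy, rfl⟩)
  · have h1 := ff_le_one R e B y x
    have h2 := DD_nonneg x x'
    linarith
  · have h1 := ff_le R e B y x (r := DD x (fun i => p.1.symm (e i)))
      (mem_insert_of_mem _ ⟨p, hp, hpy, rfl⟩)
    have h2 := DD_triangle x x' (fun i => p.1.symm (e i))
    linarith

theorem ff_lip (R : Set (UU × G)) (e : EE) (B : Set Y) (y : Y) (x x' : EE) :
    |ff R e B y x - ff R e B y x'| ≤ DD x x' := by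
  rw [abs_sub_le_iff]
  have h1 := ff_lip_aux R e B y x x'
  have h2 := ff_lip_aux R e B y x' x
  rw [DD_comm x' x] at h2
  constructor <;> linarith

theorem dset_smul (R : Set (UU × G)) (hinv : ∀ p ∈ R, p⁻¹ ∈ R)
    (hmul : ∀ p ∈ R, ∀ q ∈ R, p * q ∈ R) (e : EE) (B : Set Y) (y : Y) (x : EE)
    (u : UU) (g : G) (hug : (u, g) ∈ R) :
    dset R e B (g • y) x = dset R e B y (fun i => u.symm (x i)) := by
  unfold dset
  congr 1
  ext r
  constructor
  · rintro ⟨p, hp, hpy, rfl⟩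
    refine ⟨p * (u, g), hmul p hp _ hug, ?_, ?_⟩
    · simpa [mul_smul] using hpy
    · rw [← DD_map u.symm]
      rfl
  · rintro ⟨p, hp, hpy, rfl⟩
    refine ⟨p * (u, g)⁻¹, hmul p hp _ (hinv _ hug), ?_, ?_⟩
    · simpa [mul_smul] using hpy
    · rw [← DD_map u]
      congr 1
      funext i
      simp

theorem ff_smul (R : Set (UU × G)) (hinv : ∀ p ∈ R, p⁻¹ ∈ R)
    (hmul : ∀ p ∈ R, ∀ q ∈ R, p * q ∈ R) (e : EE) (B : Set Y) (y : Y) (x : EE)
    (u : UU) (g : G) (hug : (u, g) ∈ R) :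
    ff R e B (g • y) x = ff R e B y (fun i => u.symm (x i)) := by
  unfold ff
  rw [dset_smul R hinv hmul e B y x u g hug]

/-- the point of `XX` attached to `y` -/
def fy (R : Set (UU × G)) (e : EE) (B : ℕ → Set Y) (y : Y) : XX :=
  ⟨fun n x => ff R e (B n) y x, fun n =>
    ⟨fun x => ⟨ff_nonneg R e (B n) y x, ff_le_one R e (B n) y x⟩,
      fun x x' => ff_lip R e (B n) y x x'⟩⟩

theorem fy_smul (R : Set (UU × G)) (hinv : ∀ p ∈ R, p⁻¹ ∈ R)
    (hmul : ∀ p ∈ R, ∀ q ∈ R, p * q ∈ R) (e : EE) (B : ℕ → Set Y) (y : Y)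
    (u : UU) (g : G) (hug : (u, g) ∈ R) :
    fy R e B (g • y) = act u (fy R e B y) := by
  apply Subtype.ext
  funext n x
  exact ff_smul R hinv hmul e (B n) y x u g hug

theorem seq_of_zero (R : Set (UU × G)) (e : EE) (B : Set Y) (y : Y) (x : EE)
    (h : ff R e B y x = 0) :
    ∃ p : ℕ → UU × G, (∀ k, p k ∈ R) ∧ (∀ k, (p k).2 • y ∈ B) ∧
      Tendsto (fun k => DD x (fun i => (p k).1.symm (e i))) atTop (𝓝 0) := by
  have h1 (k : ℕ) : ∃ p ∈ R, p.2 • y ∈ B ∧ DD x (fun i => p.1.symm (e i)) < 1 / ((k : ℝ) + 1) := by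
    have hk : ff R e B y x < 1 / ((k : ℝ) + 1) := by rw [h]; positivity
    obtain ⟨r, hr, hrk⟩ := (ff_lt_iff R e B y x _).1 hk
    rcases hr with rfl | ⟨p, hp, hpy, rfl⟩
    · exfalso
      rw [lt_div_iff₀ (by positivity)] at hrk
      have : (0 : ℝ) ≤ k := Nat.cast_nonneg k
      linarith
    · exact ⟨p, hp, hpy, hrk⟩
  choose p hp hpy hpk using h1
  refine ⟨p, hp, hpy, ?_⟩
  exact squeeze_zero (fun _ => DD_nonneg _ _) (fun k => (hpk k).le)
    tendsto_one_div_add_atTop_nhds_zero_nat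

end

/-- convergence on a dense sequence gives strong convergence -/
theorem strong_of_dense (e : EE) (he : DenseRange e) (u : ℕ → UU) (V : UU)
    (h : Tendsto (fun k => DD (fun i => u k (e i)) (fun i => V (e i))) atTop (𝓝 0)) (x : HH) :
    Tendsto (fun k => u k x) atTop (𝓝 (V x)) := by
  rw [DD_tendsto (fun k => fun i => u k (e i)) (fun i => V (e i))] at h
  rw [Metric.tendsto_atTop]
  intro ε hε
  obtain ⟨i, hi⟩ := he.exists_dist_lt x (by positivity : (0 : ℝ) < ε / 3)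
  obtain ⟨N, hN⟩ := Metric.tendsto_atTop.1 (h i) (ε / 3) (by positivity)
  refine ⟨N, fun k hk => ?_⟩
  have h1 : dist (u k x) (u k (e i)) = dist x (e i) := (u k).dist_map _ _
  have h2 : dist (V (e i)) (V x) = dist (e i) x := V.dist_map _ _
  have h3 := hN k hk
  have h4 := dist_triangle4 (u k x) (u k (e i)) (V (e i)) (V x)
  rw [h1, h2, dist_comm (e i) x] at h4
  linarith

theorem symm_seq_one (u : ℕ → UU) (h : ∀ x, Tendsto (fun k => (u k).symm x) atTop (𝓝 x)) (x : HH) :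
    Tendsto (fun k => u k x) atTop (𝓝 x) := by
  rw [tendsto_iff_dist_tendsto_zero]
  have h1 : (fun k => dist (u k x) x) = fun k => dist x ((u k).symm x) := by
    funext k
    rw [← (u k).symm.dist_map (u k x) x]
    simp
  rw [h1]
  have h2 := (tendsto_const_nhds (x := x)).dist (h x)
  simpa using h2

theorem final
    (hfactor : ∀ (G : Type) [TopologicalSpace G] [Group G] [IsTopologicalGroup G] [PolishSpace G],
    ∃ R : Set (UU × G),
      (1, 1) ∈ R ∧ (∀ p ∈ R, p⁻¹ ∈ R) ∧ (∀ p ∈ R, ∀ q ∈ R, p * q ∈ R) ∧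
      (∀ g, ∃ u, (u, g) ∈ R) ∧
      (∀ (u : ℕ → UU) (g : ℕ → G), (∀ k, (u k, g k) ∈ R) →
        (∀ x, Tendsto (fun k => u k x) atTop (𝓝 x)) → Tendsto g atTop (𝓝 1)) ∧
      (∀ (u : ℕ → UU) (g : ℕ → G) (U : UU), (∀ k, (u k, g k) ∈ R) →
        (∀ x, Tendsto (fun k => u k x) atTop (𝓝 (U x))) → ∃ h, (U, h) ∈ R)) :
  ∃ (X : Type) (_ : TopologicalSpace X) (_ : PolishSpace X) (_ : MeasurableSpace X) (_ : BorelSpace X)
    (a : (lp (fun _ : ℕ => ℂ) 2 ≃ₗᵢ[ℂ] lp (fun _ : ℕ => ℂ) 2) → X → X),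
    (∀ x, a (LinearIsometryEquiv.refl ℂ (lp (fun _ : ℕ => ℂ) 2)) x = x) ∧
    (∀ (U V : lp (fun _ : ℕ => ℂ) 2 ≃ₗᵢ[ℂ] lp (fun _ : ℕ => ℂ) 2) (x : X),
      a (U.trans V) x = a V (a U x)) ∧
    @Continuous ((lp (fun _ : ℕ => ℂ) 2 ≃ₗᵢ[ℂ] lp (fun _ : ℕ => ℂ) 2) × X) X
      (@instTopologicalSpaceProd (lp (fun _ : ℕ => ℂ) 2 ≃ₗᵢ[ℂ] lp (fun _ : ℕ => ℂ) 2) X
        (TopologicalSpace.induced
          (fun U : (lp (fun _ : ℕ => ℂ) 2 ≃ₗᵢ[ℂ] lp (fun _ : ℕ => ℂ) 2) =>
            (⇑U : lp (fun _ : ℕ => ℂ) 2 → lp (fun _ : ℕ => ℂ) 2))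
          inferInstance) _) _
      (fun p : (lp (fun _ : ℕ => ℂ) 2 ≃ₗᵢ[ℂ] lp (fun _ : ℕ => ℂ) 2) × X => a p.1 p.2) ∧
    ∀ (G : Type) [TopologicalSpace G] [Group G] [IsTopologicalGroup G] [PolishSpace G]
      (Y : Type) [TopologicalSpace Y] [PolishSpace Y] [MeasurableSpace Y] [BorelSpace Y]
      [MulAction G Y] [ContinuousSMul G Y],
      ∃ f : Y → X, Measurable f ∧
        ∀ y y' : Y, (∃ g : G, g • y = y') ↔
          ∃ U : lp (fun _ : ℕ => ℂ) 2 ≃ₗᵢ[ℂ] lp (fun _ : ℕ => ℂ) 2, a U (f y) = f y' := by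
  refine ⟨XX, inferInstance, inferInstance, inferInstance, inferInstance, act, act_refl, act_trans,
    act_continuous, ?_⟩
  intro G _ _ _ _ Y _ _ _ _ _ _
  obtain ⟨R, hone, hinv, hmul, hsurj, hP1, hP2⟩ := hfactor G
  obtain ⟨B, hB⟩ := ((TopologicalSpace.countable_countableBasis Y).insert univ).exists_eq_range
    ⟨univ, mem_insert _ _⟩
  have hBopen : ∀ n, IsOpen (B n) := by
    intro n
    have h1 : B n ∈ insert univ (TopologicalSpace.countableBasis Y) := by rw [hB]; exact ⟨n, rfl⟩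
    rcases h1 with h1 | h1
    · rw [h1]; exact isOpen_univ
    · exact TopologicalSpace.isOpen_of_mem_countableBasis h1
  obtain ⟨n₀, hn₀⟩ : ∃ n, B n = univ := by
    have h1 : (univ : Set Y) ∈ range B := by rw [← hB]; exact mem_insert _ _
    exact h1
  have hBsep : ∀ z y' : Y, z ≠ y' → ∃ n, z ∈ B n ∧ y' ∉ closure (B n) := by
    intro z y' hne
    obtain ⟨V, hV, hzV, hVcl⟩ : ∃ V, IsOpen V ∧ z ∈ V ∧ y' ∉ closure V := by
      obtain ⟨V, W, hV, hW, hzV, hyW, hVW⟩ := t2_separation hne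
      refine ⟨V, hV, hzV, fun h => ?_⟩
      exact (hVW.closure_left hW).le_bot ⟨h, hyW⟩
    obtain ⟨b, hb, hzb, hbV⟩ := (TopologicalSpace.isBasis_countableBasis Y).exists_subset_of_mem_open
      hzV hV
    have h1 : b ∈ range B := by rw [← hB]; exact mem_insert_of_mem _ hb
    obtain ⟨n, rfl⟩ := h1
    exact ⟨n, hzb, fun h => hVcl (closure_mono hbV h)⟩
  set e : EE := TopologicalSpace.denseSeq HH with he
  have hdense : DenseRange e := TopologicalSpace.denseRange_denseSeq HH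
  have hself : ∀ (n : ℕ) (y : Y), y ∈ B n → ff R e (B n) y e = 0 := by
    intro n y hy
    refine le_antisymm ?_ (ff_nonneg _ _ _ _ _)
    refine ff_le R e (B n) y e (mem_insert_of_mem _ ⟨(1, 1), hone, by simpa using hy, ?_⟩)
    exact (DD_self e).symm
  refine ⟨fun y => fy R e B y, ?_, ?_⟩
  · refine measurable_XX _ fun n x => ?_
    refine measurable_of_Iio fun c => ?_
    have h1 : (fun y => (fy R e B y).1 n x) ⁻¹' Iio c =
        {y | (1 : ℝ) < c} ∪ ⋃ p ∈ {p ∈ R | DD x (fun i => p.1.symm (e i)) < c},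
          {y : Y | p.2 • y ∈ B n} := by
      ext y
      simp only [mem_preimage, mem_Iio, mem_union, mem_iUnion, mem_ofPred_eq, exists_prop]
      show ff R e (B n) y x < c ↔ _
      rw [ff_lt_iff]
      constructor
      · rintro ⟨r, rfl | ⟨p, hp, hpy, rfl⟩, hrc⟩
        · exact Or.inl hrc
        · exact Or.inr ⟨p, ⟨hp, hrc⟩, hpy⟩
      · rintro (h | ⟨p, ⟨hp, hrc⟩, hpy⟩)
        · exact ⟨1, mem_insert _ _, h⟩
        · exact ⟨_, mem_insert_of_mem _ ⟨p, hp, hpy, rfl⟩, hrc⟩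
    rw [h1]
    refine IsOpen.measurableSet (IsOpen.union isOpen_const ?_)
    refine isOpen_biUnion fun p _ => ?_
    exact (hBopen n).preimage (continuous_const_smul p.2)
  · intro y y'
    constructor
    · rintro ⟨g, rfl⟩
      obtain ⟨u, hu⟩ := hsurj g
      exact ⟨u, (fy_smul R hinv hmul e B y u g hu).symm⟩
    · rintro ⟨U, hU⟩
      have hU' : ∀ n x, ff R e (B n) y (fun i => U.symm (x i)) = ff R e (B n) y' x := by
        intro n x
        exact congrFun (congrFun (congrArg Subtype.val hU) n) x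
      have h0 : ff R e (B n₀) y (fun i => U.symm (e i)) = 0 := by
        rw [hU' n₀ e]
        exact hself n₀ y' (by rw [hn₀]; exact mem_univ _)
      obtain ⟨p, hp, -, hpt⟩ := seq_of_zero R e (B n₀) y _ h0
      obtain ⟨h, hh⟩ : ∃ h, (U.symm, h) ∈ R := by
        refine hP2 (fun k => (p k).1.symm) (fun k => (p k).2⁻¹) U.symm (fun k => ?_) ?_
        · exact hinv _ (hp k)
        · refine strong_of_dense e hdense _ _ ?_
          simpa only [DD_comm] using hpt
      have hUg : (U, h⁻¹) ∈ R := by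
        have := hinv _ hh
        exact this
      refine ⟨h⁻¹, ?_⟩
      by_contra hne
      have hz : fy R e B (h⁻¹ • y) = fy R e B y' := by
        rw [fy_smul R hinv hmul e B y U h⁻¹ hUg]
        exact hU
      obtain ⟨n, hzn, hyn⟩ := hBsep _ _ hne
      have h1 : ff R e (B n) y' e = 0 := by
        have h2 := congrFun (congrFun (congrArg Subtype.val hz) n) e
        have h3 : ff R e (B n) (h⁻¹ • y) e = ff R e (B n) y' e := h2
        rw [← h3]
        exact hself n _ hzn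
      obtain ⟨q, hq, hqB, hqt⟩ := seq_of_zero R e (B n) y' _ h1
      have h4 : ∀ x, Tendsto (fun k => (q k).1.symm x) atTop (𝓝 x) := by
        intro x
        have h9 : (fun k => DD (fun i => (q k).1.symm (e i))
            (fun i => (LinearIsometryEquiv.refl ℂ HH) (e i))) =
            fun k => DD e (fun i => (q k).1.symm (e i)) := by
          funext k
          exact DD_comm _ _
        refine strong_of_dense e hdense (fun k => (q k).1.symm) (LinearIsometryEquiv.refl ℂ HH) ?_ x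
        rw [h9]
        exact hqt
      have h5 : Tendsto (fun k => (q k).2) atTop (𝓝 1) :=
        hP1 (fun k => (q k).1) (fun k => (q k).2) hq (symm_seq_one _ h4)
      have h6 : Tendsto (fun k => (q k).2 • y') atTop (𝓝 ((1 : G) • y')) :=
        h5.smul_const y'
      rw [one_smul] at h6
      exact hyn (mem_closure_of_tendsto h6 (Eventually.of_forall hqB))

end Pool.Agent.UH48
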